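import Pool.Agent.helper1.CD.Spec

/-!
# Row cd:UNQ (MP_2e0e07_nt): the Frobenius class
-/

set_option autoImplicit false

open NumberField IsDedekindDomain Complex Pool.Agent.CH Pool.Agent.GK

namespace Pool.Agent.CD

open scoped Pointwise

theorem UNQ (hUNF : UNF_stmt) : UNQ_stmt := by
  intro K M _ _ _ _ _ _
  classical
  have hD : differentIdeal (𝓞 K) (𝓞 M) ≠ 0 := differentIdeal_ne_bot
  have hfin := Ideal.finite_factors hD
  have hfin2 : {v : Pl K | ∃ P : Pl M, P.asIdeal ∣ differentIdeal (𝓞 K) (𝓞 M) ∧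
      P.asIdeal.under (𝓞 K) = v.asIdeal}.Finite := by
    have h1 : ((fun P : Pl M => P.asIdeal.under (𝓞 K)) ''
        {P | P.asIdeal ∣ differentIdeal (𝓞 K) (𝓞 M)}).Finite := hfin.image _
    refine (h1.preimage (f := fun v : Pl K => v.asIdeal)
      (fun v _ w _ h => HeightOneSpectrum.ext h)).subset ?_
    rintro v ⟨P, hP, hPv⟩
    exact ⟨P, hP, hPv⟩
  refine ⟨hfin2.toFinset, fun v hv P P' g g' hP hP' hPv hPv' hg hg' => ?_⟩
  have hP0 : P ≠ ⊥ := by
    intro h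
    apply v.ne_bot
    rw [← hPv, h]
    exact Ideal.comap_bot_of_injective _ (FaithfulSMul.algebraMap_injective (𝓞 K) (𝓞 M))
  have hPd : ¬ P ∣ differentIdeal (𝓞 K) (𝓞 M) := by
    intro h
    apply hv
    rw [Set.Finite.mem_toFinset]
    exact ⟨⟨P, hP, hP0⟩, h, hPv⟩
  obtain ⟨h, hh⟩ := Algebra.IsInvariant.exists_smul_of_under_eq (𝓞 K) (𝓞 M) Gal(M/K) P P'
    (hPv.trans hPv'.symm)
  have h1 : IsFr (h⁻¹ * g' * h) P (nv K v) := by
    intro x
    have h2 := hg' (h • x)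
    rw [hh] at h2
    rw [← Ideal.smul_mem_pointwise_smul_iff (a := h), smul_sub, smul_pow', mul_smul, mul_smul,
      smul_inv_smul]
    exact h2
  have h3 := hUNF K M P (nv K v) g (h⁻¹ * g' * h) hP hP0 hPd hg h1
  rw [isConj_iff]
  exact ⟨h, by rw [h3]; group⟩

end Pool.Agent.CD
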